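import Pool.Agent.L7h32.PF.Fin
import Pool.Agent.L7h50.PI.Cpr
import Pool.Agent.L7h50.PI.Cpc

/-!
# MP_28b04d_gt, Q1: uniformly nearly affine diffeomorphisms of `CP²`, finiteness of their classes

Q1 asks for the smooth isotopy classes of the diffeomorphisms of `CP²` (trivial on homology). The theorem:
there is one universal constant `ε > 0` such that for all `H` and all `r₀ > 0` the diffeomorphisms of `CP²`
which are `ε`-nearly affine at all scales `r ≤ r₀`, with distortion at most `H`, are contained in finitely many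
smooth isotopy classes. (At all scales `r ≤ r₀` every ball of radius `r` in `CP²` is mapped within `ε l r` of an
affine map which expands distances at least by `l` and at most by `H l`; `l` and the affine map depend on the
ball and on the scale, `l` may become large or small, there is no bound on the derivatives of the
diffeomorphism or of its inverse.)

`CP²` is the set of the rank one Hermitian projections, as in the frozen statement S12917.
-/

set_option autoImplicit false

open Set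
open scoped ContDiff

noncomputable section

namespace Pool.Agent.Results.MP_28b04d_gt.FiniteNearlyAffine

/-- `3 × 3` matrices, with the maximum norm -/
abbrev M3 : Type := Fin 3 → Fin 3 → ℂ

/-- Hermitian -/
def Herm (P : M3) : Prop := ∀ i j, P j i = star (P i j)

/-- idempotent -/
def Idem (P : M3) : Prop := ∀ i j, ∑ k, P i k * P k j = P i j

/-- the complex projective plane -/
def CP2 : Set M3 := {P | Herm P ∧ Idem P ∧ ∑ i, P i i = 1}

/-- `F` restricts to a diffeomorphism of `CP²` -/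
def Diffeo (F : M3 → M3) : Prop :=
  ContDiff ℝ ∞ F ∧ (∀ P ∈ CP2, F P ∈ CP2) ∧
    ∃ G : M3 → M3, ContDiff ℝ ∞ G ∧ ∀ P ∈ CP2, G P ∈ CP2 ∧ G (F P) = P ∧ F (G P) = P

/-- the diffeomorphisms `F₀`, `F₁` of `CP²` are smoothly isotopic -/
def SmoothlyIsotopic (F₀ F₁ : M3 → M3) : Prop :=
  ∃ K : ℝ × M3 → M3, ContDiff ℝ ∞ K ∧ (∀ t, Diffeo fun P => K (t, P)) ∧
    (∀ P ∈ CP2, K (0, P) = F₀ P) ∧ ∀ P ∈ CP2, K (1, P) = F₁ P

/-- the affine map `T` expands distances at least by `l` and at most by `H l` -/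
def Expands (l H : ℝ) (T : M3 →ᵃ[ℝ] M3) : Prop :=
  ∀ v w, l * dist v w ≤ dist (T v) (T w) ∧ dist (T v) (T w) ≤ H * l * dist v w

/-- `f` is `ε`-nearly affine on `CP²` at the scale `r`, with distortion at most `H` -/
def NearlyAffine (ε H r : ℝ) (f : M3 → M3) : Prop :=
  ∀ P ∈ CP2, ∃ (l : ℝ) (T : M3 →ᵃ[ℝ] M3), 0 < l ∧ Expands l H T ∧
    ∀ Q ∈ CP2, dist Q P ≤ r → dist (f Q) (T Q) ≤ ε * l * r

/-- an affine map as a linear map plus a constant -/
def lin (T : M3 →ᵃ[ℝ] M3) : M3 →L[ℝ] M3 := LinearMap.toContinuousLinearMap T.linear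

theorem lin_apply (T : M3 →ᵃ[ℝ] M3) (v : M3) : T v = lin T v + T 0 := by
  have := T.linearMap_vsub v 0
  simp only [vsub_eq_sub, sub_zero] at this
  change T v = T.linear v + T 0
  rw [this, sub_add_cancel]

theorem lin_dist (T : M3 →ᵃ[ℝ] M3) (v : M3) : dist (T v) (T 0) = ‖lin T v‖ := by
  rw [dist_eq_norm]
  congr 1
  rw [lin_apply T v, add_sub_cancel_right]

theorem nAff_of {ε H r : ℝ} {f : M3 → M3} (h : NearlyAffine ε H r f) :
    Pool.Agent.L7h32.PI.NAff CP2 ε H r f := by
  intro x hx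
  obtain ⟨l, T, hl, hT, hb⟩ := h x hx
  refine ⟨l, lin T, T 0, hl, fun v => ?_, fun v => ?_, fun y hy hyx => ?_⟩
  · have := (hT v 0).1
    rwa [dist_zero_right, lin_dist] at this
  · have := (hT v 0).2
    rwa [dist_zero_right, lin_dist] at this
  · have := hb y hy (by rwa [dist_eq_norm])
    rwa [← lin_apply, ← dist_eq_norm]

/-- THE THEOREM: the diffeomorphisms which are nearly affine at all scales `≤ r₀`, with distortion at
most `H`, are contained in finitely many smooth isotopy classes. -/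
theorem result : ∃ ε : ℝ, 0 < ε ∧ ∀ H r₀ : ℝ, 0 < r₀ →
    ∃ B : Set (M3 → M3), B.Finite ∧ (∀ G ∈ B, Diffeo G) ∧
      ∀ F : M3 → M3, Diffeo F → (∀ r : ℝ, 0 < r → r ≤ r₀ → NearlyAffine ε H r F) →
        ∃ G ∈ B, SmoothlyIsotopic G F := by
  obtain ⟨U, N, hR⟩ := Pool.Agent.L7h50.PI.s_CPR
  obtain ⟨ε, hε, h⟩ := Pool.Agent.L7h32.PF.general_fin hR Pool.Agent.L7h50.PI.s_CPC.1
  refine ⟨ε, hε, fun H r₀ hr₀ => ?_⟩
  obtain ⟨B, h1, h2, h3⟩ := h H r₀ hr₀
  exact ⟨B, h1, h2, fun F hF hFc => h3 F hF fun r hr hr2 => nAff_of (hFc r hr hr2)⟩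

end Pool.Agent.Results.MP_28b04d_gt.FiniteNearlyAffine
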