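import Pool.Agent.L7h32.PI.Gen
import Pool.Agent.L7h67.PI.Conv
import Pool.Agent.L7h50.PI.Cpr
import Pool.Agent.L7h50.PI.Cpc

/-!
# MP_28b04d_gt, Q1: nearly affine homotopies between diffeomorphisms of `CP²`

Q1 asks whether a diffeomorphism of `CP²` which acts trivially on homology, i.e. which is homotopic to the
identity, is smoothly isotopic to the identity. The theorem: two diffeomorphisms of `CP²` are smoothly
isotopic if and only if they are joined by a homotopy `f_s : CP² → CP²`, only continuous in `(s, x)`, whose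
maps are nearly affine at arbitrarily small scales `r`: every ball of radius `r` in `CP²` is mapped within
`ε l r` of an affine map which expands distances at least by `l` and at most by `H l`. Here `ε > 0` is one
universal constant, `H` is any number, `l` and the affine map depend on `s`, on the ball and on the scale.
The maps `f_s`, `0 < s < 1`, are neither assumed to be injective nor to be differentiable anywhere.

`CP²` is the set of the rank one Hermitian projections, as in the frozen statement S12917.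
-/

set_option autoImplicit false

open Set
open scoped ContDiff

noncomputable section

namespace Pool.Agent.Results.MP_28b04d_gt.NearlyAffinePaths

/-- `3 × 3` matrices, with the maximum norm -/
abbrev M3 : Type := Fin 3 → Fin 3 → ℂ

/-- Hermitian -/
def Herm (P : M3) : Prop := ∀ i j, P j i = star (P i j)

/-- idempotent -/
def Idem (P : M3) : Prop := ∀ i j, ∑ k, P i k * P k j = P i j

/-- the complex projective plane -/
def CP2 : Set M3 := {P | Herm P ∧ Idem P ∧ ∑ i, P i i = 1}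

/-- `F` restricts to a diffeomorphism of `CP²` -/
def Diffeo (F : M3 → M3) : Prop :=
  ContDiff ℝ ∞ F ∧ (∀ P ∈ CP2, F P ∈ CP2) ∧
    ∃ G : M3 → M3, ContDiff ℝ ∞ G ∧ ∀ P ∈ CP2, G P ∈ CP2 ∧ G (F P) = P ∧ F (G P) = P

/-- the diffeomorphisms `F₀`, `F₁` of `CP²` are smoothly isotopic -/
def SmoothlyIsotopic (F₀ F₁ : M3 → M3) : Prop :=
  ∃ K : ℝ × M3 → M3, ContDiff ℝ ∞ K ∧ (∀ t, Diffeo fun P => K (t, P)) ∧
    (∀ P ∈ CP2, K (0, P) = F₀ P) ∧ ∀ P ∈ CP2, K (1, P) = F₁ P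

/-- the affine map `T` expands distances at least by `l` and at most by `H l` -/
def Expands (l H : ℝ) (T : M3 →ᵃ[ℝ] M3) : Prop :=
  ∀ v w, l * dist v w ≤ dist (T v) (T w) ∧ dist (T v) (T w) ≤ H * l * dist v w

/-- `f` is `ε`-nearly affine on `CP²` at the scale `r`, with distortion at most `H` -/
def NearlyAffine (ε H r : ℝ) (f : M3 → M3) : Prop :=
  ∀ P ∈ CP2, ∃ (l : ℝ) (T : M3 →ᵃ[ℝ] M3), 0 < l ∧ Expands l H T ∧
    ∀ Q ∈ CP2, dist Q P ≤ r → dist (f Q) (T Q) ≤ ε * l * r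

/-- `f` is a homotopy of maps `CP² → CP²` from `F₀` to `F₁` -/
def Homotopy (F₀ F₁ : M3 → M3) (f : ℝ × M3 → M3) : Prop :=
  ContinuousOn f (Icc 0 1 ×ˢ CP2) ∧ (∀ s ∈ Icc (0 : ℝ) 1, ∀ P ∈ CP2, f (s, P) ∈ CP2) ∧
    (∀ P ∈ CP2, f (0, P) = F₀ P) ∧ ∀ P ∈ CP2, f (1, P) = F₁ P

/-- `f` is nearly affine at arbitrarily small scales -/
def SmallScales (ε H : ℝ) (f : ℝ × M3 → M3) : Prop :=
  ∀ r₀ : ℝ, 0 < r₀ → ∃ r : ℝ, 0 < r ∧ r < r₀ ∧
    ∀ s ∈ Icc (0 : ℝ) 1, NearlyAffine ε H r fun P => f (s, P)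

open Pool.Agent.L7h32.PI in
theorem cp2_eq : CP2 = Pool.Agent.L7h32.PI.CP2 := rfl

theorem diffeo_eq (F : M3 → M3) : Diffeo F ↔ Pool.Agent.L7h32.PI.IsDiff CP2 F := Iff.rfl

/-- an affine map as a linear map plus a constant -/
def lin (T : M3 →ᵃ[ℝ] M3) : M3 →L[ℝ] M3 := LinearMap.toContinuousLinearMap T.linear

theorem lin_apply (T : M3 →ᵃ[ℝ] M3) (v : M3) : T v = lin T v + T 0 := by
  have := T.linearMap_vsub v 0
  simp only [vsub_eq_sub, sub_zero] at this
  change T v = T.linear v + T 0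
  rw [this, sub_add_cancel]

theorem lin_dist (T : M3 →ᵃ[ℝ] M3) (v : M3) : dist (T v) (T 0) = ‖lin T v‖ := by
  rw [dist_eq_norm]
  congr 1
  rw [lin_apply T v, add_sub_cancel_right]

theorem nAff_of {ε H r : ℝ} {f : M3 → M3} (h : NearlyAffine ε H r f) :
    Pool.Agent.L7h32.PI.NAff CP2 ε H r f := by
  intro x hx
  obtain ⟨l, T, hl, hT, hb⟩ := h x hx
  refine ⟨l, lin T, T 0, hl, fun v => ?_, fun v => ?_, fun y hy hyx => ?_⟩
  · have := (hT v 0).1
    rwa [dist_zero_right, lin_dist] at this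
  · have := (hT v 0).2
    rwa [dist_zero_right, lin_dist] at this
  · have := hb y hy (by rwa [dist_eq_norm])
    rwa [← lin_apply, ← dist_eq_norm]

theorem of_nAff {ε H r : ℝ} {f : M3 → M3} (h : Pool.Agent.L7h32.PI.NAff CP2 ε H r f) :
    NearlyAffine ε H r f := by
  intro x hx
  obtain ⟨l, T, b, hl, hT, hTH, hb⟩ := h x hx
  have e : ∀ v, (T.toLinearMap.toAffineMap + AffineMap.const ℝ M3 b) v = T v + b := fun v => rfl
  refine ⟨l, T.toLinearMap.toAffineMap + AffineMap.const ℝ M3 b, hl, fun v w => ?_,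
    fun y hy hyx => ?_⟩
  · rw [e, e, dist_eq_norm, dist_eq_norm]
    have e2 : T v + b - (T w + b) = T (v - w) := by
      rw [map_sub]
      abel
    rw [e2]
    exact ⟨hT _, hTH _⟩
  · rw [e, dist_eq_norm]
    exact hb y hy (by rwa [← dist_eq_norm])

/-- THE THEOREM: diffeomorphisms of `CP²` are smoothly isotopic if and only if they are joined by a
homotopy which is nearly affine at arbitrarily small scales. -/
theorem result : ∃ ε : ℝ, 0 < ε ∧ ∀ F₀ F₁ : M3 → M3, Diffeo F₀ → Diffeo F₁ →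
    (SmoothlyIsotopic F₀ F₁ ↔
      ∃ (H : ℝ) (f : ℝ × M3 → M3), Homotopy F₀ F₁ f ∧ SmallScales ε H f) := by
  obtain ⟨U, N, hR⟩ := Pool.Agent.L7h50.PI.s_CPR
  have hK := Pool.Agent.L7h50.PI.s_CPC.1
  obtain ⟨ε, hε, h⟩ := Pool.Agent.L7h32.PI.general hR hK
  refine ⟨ε, hε, fun F₀ F₁ h0 h1 => ⟨?_, ?_⟩⟩
  · rintro ⟨M, m1, m2, m3, m4⟩
    obtain ⟨H, hH⟩ := Pool.Agent.L7h67.PI.s_CONV M3 CP2 U N M hR hK m1 m2
    refine ⟨H, M, ⟨m1.continuous.continuousOn, fun s _ P hP => (m2 s).2.1 P hP, m3, m4⟩, ?_⟩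
    intro r₀ hr₀
    obtain ⟨r₁, hr₁, h2⟩ := hH ε hε
    refine ⟨min r₀ r₁ / 2, by positivity, ?_, fun s hs => of_nAff (h2 _ (by positivity) ?_ s hs)⟩
    · have := min_le_left r₀ r₁
      linarith
    · have := min_le_right r₀ r₁
      have := lt_min hr₀ hr₁
      linarith
  · rintro ⟨H, f, hf, hs⟩
    refine h H f F₀ F₁ hf.1 hf.2.1 (fun r₀ hr₀ => ?_) h0 h1 hf.2.2.1 hf.2.2.2
    obtain ⟨r, hr, hr2, h3⟩ := hs r₀ hr₀
    exact ⟨r, hr, hr2, fun s hs => nAff_of (h3 s hs)⟩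

end Pool.Agent.Results.MP_28b04d_gt.NearlyAffinePaths
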