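import Pool.Agent.L7h45.PI.Comp

/-!
# MP_28b04d_gt, Q1: chains of explicit steps

Q1 asks whether a diffeomorphism of `CP²` which acts trivially on homology is smoothly isotopic to the
identity. The theorem: let `F₀, …, F_k : CP² → CP²` be smooth maps, `F₀` a diffeomorphism, such that each
`F_i`, `F_(i+1)` are adjacent in one of two senses, which are explicit conditions on the first derivatives.
Then all `F_i` are diffeomorphisms, smoothly isotopic to `F₀`.

(i) Spectral steps. `F`, `G` have smooth homogeneous lifts `Φ, Ψ : ℂ³ ∖ 0 → ℂ³`, `Φ(λ z) = λ Φ(z)` for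
`λ ∈ ℂ^*` (every map homotopic to the identity has such lifts, unique up to multiplication by functions
`CP² → ℂ^*`), such that `(1 - t) DΦ(z) + t DΨ(z)` is invertible for `0 ≤ t ≤ 1` and all `z ≠ 0` (real
`6 × 6` matrices). For `F = id`, `Φ = id`: no `DΨ(z)` has an eigenvalue in `(-∞, 0]`.

(ii) Turning steps. `G(x)` is never orthogonal to `F(x)`; let `c = c(x) > 0` be the cosine of the angle
between these lines. For all tangent vectors `v ≠ 0` the vectors `dG(v)` and `dF(v)`, compared by parallel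
transport along the minimal geodesic from `F(x)` to `G(x)`, make an angle less than `π - δ`, `δ < π/2` the
angle with `cos δ = 2 c / (1 + c²)`. There is no condition on the lengths of the vectors. For `F = id` and
`G` a diffeomorphism this holds if `G` maps no point to its polar line and turns no tangent vector by more
than `90` degrees.

`CP²` is the set of the rank one Hermitian projections, as in the frozen statement S12917.
-/

set_option autoImplicit false

open Set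
open scoped ContDiff

noncomputable section

namespace Pool.Agent.Results.MP_28b04d_gt.SpectralOrTurningSteps

/-- `3 × 3` matrices -/
abbrev M3 : Type := Fin 3 → Fin 3 → ℂ

/-- vectors -/
abbrev V3 : Type := Fin 3 → ℂ

/-- Hermitian -/
def Herm (P : M3) : Prop := ∀ i j, P j i = star (P i j)

/-- idempotent -/
def Idem (P : M3) : Prop := ∀ i j, ∑ k, P i k * P k j = P i j

/-- the complex projective plane -/
def CP2 : Set M3 := {P | Herm P ∧ Idem P ∧ ∑ i, P i i = 1}

/-- `F` restricts to a smooth map `CP² → CP²` -/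
def SmoothMap (F : M3 → M3) : Prop := ContDiff ℝ ∞ F ∧ ∀ P ∈ CP2, F P ∈ CP2

/-- `F` restricts to a diffeomorphism of `CP²` -/
def Diffeo (F : M3 → M3) : Prop :=
  ContDiff ℝ ∞ F ∧ (∀ P ∈ CP2, F P ∈ CP2) ∧
    ∃ G : M3 → M3, ContDiff ℝ ∞ G ∧ ∀ P ∈ CP2, G P ∈ CP2 ∧ G (F P) = P ∧ F (G P) = P

/-- the diffeomorphisms `F₀`, `F₁` of `CP²` are smoothly isotopic -/
def SmoothlyIsotopic (F₀ F₁ : M3 → M3) : Prop :=
  ∃ K : ℝ × M3 → M3, ContDiff ℝ ∞ K ∧ (∀ t, Diffeo fun P => K (t, P)) ∧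
    (∀ P ∈ CP2, K (0, P) = F₀ P) ∧ ∀ P ∈ CP2, K (1, P) = F₁ P

/-- `⟨x, y⟩ = ∑ x̄_i y_i` -/
def ip (x y : V3) : ℂ := ∑ i, star (x i) * y i

/-- the Euclidean length -/
def len (x : V3) : ℝ := √(ip x x).re

/-! ### Spectral steps -/

/-- `Φ` is smooth off the origin, `Φ(l z) = l Φ(z)` for complex `l ≠ 0` -/
def Homog (Φ : V3 → V3) : Prop :=
  ContDiffOn ℝ ∞ Φ {0}ᶜ ∧ ∀ (l : ℂ) (z : V3), l ≠ 0 → z ≠ 0 → Φ (l • z) = l • Φ z

/-- the point of `CP²` given by `z` -/
def pr (z : V3) : M3 := fun i j => z i * star (z j) / ip z z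

/-- `Φ` is a homogeneous lift of `F` -/
def IsLift (Φ : V3 → V3) (F : M3 → M3) : Prop :=
  Homog Φ ∧ ∀ z : V3, z ≠ 0 → F (pr z) = pr (Φ z)

/-- `(1 - t) DΦ(z) + t DΨ(z)` is invertible for `0 ≤ t ≤ 1`, `z ≠ 0` -/
def SegmentInvertible (Φ Ψ : V3 → V3) : Prop :=
  ∀ z : V3, z ≠ 0 → ∀ t ∈ Icc (0 : ℝ) 1, ∀ v,
    (1 - t) • fderiv ℝ Φ z v + t • fderiv ℝ Ψ z v = 0 → v = 0

/-- (i) -/
def SpectralStep (F G : M3 → M3) : Prop :=
  ∃ Φ Ψ : V3 → V3, IsLift Φ F ∧ IsLift Ψ G ∧ SegmentInvertible Φ Ψ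

/-! ### Turning steps -/

/-- `P` is the orthogonal projection on the line of the unit vector `u` -/
def Proj (u : V3) (P : M3) : Prop := ip u u = 1 ∧ ∀ i j, P i j = u i * star (u j)

/-- `p` is a tangent vector of `CP²` at `P` -/
def Tangent (P p : M3) : Prop :=
  (∀ i j, p j i = star (p i j)) ∧ ∀ i j, ∑ k, (P i k * p k j + p i k * P k j) = p i j

/-- the tangent vector `p` at `P = u u^*` as the vector `p u`, which is orthogonal to `u`:
`p = a u^* + u a^*` for `a = lift p u` -/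
def lift (p : M3) (u : V3) : V3 := fun i => ∑ j, p i j * u j

/-- parallel transport along the minimal geodesic from the line of `u` to the line of `w`, for unit
vectors `u`, `w` with `⟨w, u⟩ > 0`, of the vectors `a` orthogonal to `u` -/
def transport (u w a : V3) : V3 := fun i => a i - ip w a / (1 + ip w u) * (u i + w i)

/-- the angle between `dG(p)` and the transport of `dF(p)` is less than `π - δ`,
`cos δ = 2 c / (1 + c²)` -/
def SmallTurns (F G : M3 → M3) : Prop :=
  ∀ P ∈ CP2, ∀ p, Tangent P p → p ≠ 0 → ∀ (u w : V3) (c : ℝ), Proj u (F P) → Proj w (G P) →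
    ip w u = c → 0 < c →
    -(2 * c / (1 + c ^ 2) *
      (len (lift (fderiv ℝ F P p) u) * len (lift (fderiv ℝ G P p) w))) <
      (ip (transport u w (lift (fderiv ℝ F P p) u)) (lift (fderiv ℝ G P p) w)).re

/-- `F P` and `G P` are never orthogonal: `tr (F P · G P) ≠ 0` -/
def NeverOrthogonal (F G : M3 → M3) : Prop :=
  ∀ P ∈ CP2, ∑ i, ∑ k, F P i k * G P k i ≠ 0

/-- (ii) -/
def TurningStep (F G : M3 → M3) : Prop := NeverOrthogonal F G ∧ SmallTurns F G

/-! ### Proofs -/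

theorem diffeo_of {F₀ F : M3 → M3} (hF : ContDiff ℝ ∞ F) (h : SmoothlyIsotopic F₀ F) :
    Diffeo F := by
  obtain ⟨g, h1, h2⟩ := Pool.Agent.L7h45.PI.smIso_right (K := CP2) h
  exact Pool.Agent.L7h45.PI.isDiff_congr h1 hF h2

theorem ind_eq {Φ : V3 → V3} {F : M3 → M3} (h : IsLift Φ F) {P : M3} (hP : P ∈ CP2) :
    Pool.Agent.L7h45.PI.ind Φ P = F P := by
  have h1 := Pool.Agent.L7h45.PI.proj_unitOf hP
  have h2 := h.2 (Pool.Agent.L7h45.PI.unitOf P) (Pool.Agent.L7h45.PI.ne_zero_of_proj h1)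
  have h3 : pr (Pool.Agent.L7h45.PI.unitOf P) = P := Pool.Agent.L7h45.PI.pr_of_proj h1
  rw [h3] at h2
  exact h2.symm

theorem spectral {F G : M3 → M3} (hF : Diffeo F) (h : SpectralStep F G) :
    SmoothlyIsotopic F G := by
  obtain ⟨Φ, Ψ, h1, h2, h3⟩ := h
  refine Pool.Agent.L7h45.PI.smIso_congr
    (Pool.Agent.L7h45.PI.ind_iso h1.1 h2.1 h3 fun x hx y hy hxy => ?_)
    (fun P hP => ind_eq h1 hP) fun P hP => ind_eq h2 hP
  obtain ⟨_, _, H, _, hH⟩ := hF
  rw [ind_eq h1 hx, ind_eq h1 hy] at hxy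
  rw [← (hH x hx).2.1, hxy, (hH y hy).2.1]

theorem turning {F G : M3 → M3} (hF : Diffeo F) (hG : SmoothMap G) (h : TurningStep F G) :
    SmoothlyIsotopic F G :=
  Pool.Agent.L7h45.PI.turn_iso hF hG.1 hG.2 h.1 h.2

theorem refl {F : M3 → M3} (hF : Diffeo F) : SmoothlyIsotopic F F :=
  ⟨fun p => F p.2, hF.1.comp contDiff_snd, fun _ => hF, fun _ _ => rfl, fun _ _ => rfl⟩

/-- THE THEOREM -/
theorem result : ∀ (k : ℕ) (F : ℕ → M3 → M3), Diffeo (F 0) → (∀ i, i ≤ k → SmoothMap (F i)) →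
    (∀ i, i < k → SpectralStep (F i) (F (i + 1)) ∨ TurningStep (F i) (F (i + 1))) →
    ∀ i, i ≤ k → Diffeo (F i) ∧ SmoothlyIsotopic (F 0) (F i) := by
  intro k F h0 hs hstep i
  obtain ⟨U, N, hR⟩ := Pool.Agent.L7h50.PI.s_CPR
  induction i with
  | zero => exact fun _ => ⟨h0, refl h0⟩
  | succ i ih =>
    intro hi
    obtain ⟨h1, h2⟩ := ih (by omega)
    have h3 : SmoothlyIsotopic (F i) (F (i + 1)) := by
      rcases hstep i (by omega) with h | h
      · exact spectral h1 h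
      · exact turning h1 (hs _ hi) h
    have h4 : SmoothlyIsotopic (F 0) (F (i + 1)) :=
      Pool.Agent.L7h45.PI.smIso_trans hR Pool.Agent.L7h50.PI.s_CPC.1 h2 h3
    exact ⟨diffeo_of (hs _ hi).1 h3, h4⟩

end Pool.Agent.Results.MP_28b04d_gt.SpectralOrTurningSteps
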