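import Pool.Agent.L7h38.LV.Iso

/-!
# MP_28b04d_gt, Q1: the isotopies generated by the smooth ones of corank at most one

Q1 asks whether every diffeomorphism `φ` of `CP²` that acts trivially on homology is smoothly
isotopic to the identity. By the theorems of Perron and Quinn there is a path of homeomorphisms
`f_t` from the identity to `φ`; the question is whether it can be replaced by a smooth path of
diffeomorphisms. The theorem gives a class of paths of homeomorphisms for which this is so. It is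
stated for all smooth manifolds `X`, `Y` (Hausdorff, without boundary) of the same dimension `k`; for
Q1 `X = Y = CP²` and `k = 4`.

A path of homeomorphisms is the same as a homeomorphism `g(t, x) = (t, f_t x)` of the cylinders
`ℝ × X`, `ℝ × Y` which preserves the height `t`. `Tame` is the least class of homeomorphisms of smooth
manifolds with height functions without critical points (for example cylinders, but the manifolds are
arbitrary) which contains all smooth height preserving homeomorphisms whose derivatives have corank at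
most one and which are local diffeomorphisms outside a compact set, and which is closed under
inverses, compositions and limits relative to infinity.

In the starting file `CorankOneIsotopy` the path itself is smooth of corank at most one.
-/

set_option autoImplicit false

open Set Filter Topology Function
open scoped Manifold ContDiff

noncomputable section

namespace Pool.Agent.Results.MP_28b04d_gt.TameIsotopies

/-- `ℝ^n` -/
abbrev RE (n : ℕ) : Type := EuclideanSpace ℝ (Fin n)

section defs

variable {n : ℕ} {M N : Type} [TopologicalSpace M] [TopologicalSpace N] [ChartedSpace (RE n) M]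
  [ChartedSpace (RE n) N]

/-- `f` is a map of class `C^∞` -/
def Smooth (f : M → N) : Prop := ContMDiff (𝓡 n) (𝓡 n) ∞ f

/-- the function `τ` is of class `C^∞` -/
def SmoothFun (τ : M → ℝ) : Prop := ContMDiff (𝓡 n) 𝓘(ℝ, ℝ) ∞ τ

/-- the derivative of `f` at `x`, as a linear map from `ℝ^n` to `ℝ^n` (in the preferred charts) -/
def der (f : M → N) (x : M) : RE n →L[ℝ] RE n := mfderiv (𝓡 n) (𝓡 n) f x

/-- the derivative of the function `τ` at `x`, as a linear form on `ℝ^n` (in the preferred chart) -/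
def derFun (τ : M → ℝ) (x : M) : RE n →L[ℝ] ℝ := mfderiv (𝓡 n) 𝓘(ℝ, ℝ) τ x

/-- the rank of a linear map -/
def rank (L : RE n →L[ℝ] RE n) : ℕ := Module.finrank ℝ (LinearMap.range L.toLinearMap)

/-- `f` is a local diffeomorphism (of class `C^∞`, with smooth inverse) at `x` -/
def LocDiff (f : M → N) (x : M) : Prop := IsLocalDiffeomorphAt (𝓡 n) (𝓡 n) ∞ f x

/-- the set of the points at which `f` is not a local diffeomorphism -/
def bad (f : M → N) : Set M := {x | ¬ LocDiff (n := n) f x}

end defs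

/-- smooth `n`-manifolds (Hausdorff, without boundary, possibly noncompact) -/
structure Man (n : ℕ) where
  /-- the set of points -/
  pts : Type
  [top : TopologicalSpace pts]
  [chart : ChartedSpace (RE n) pts]
  smooth : IsManifold (𝓡 n) ∞ pts
  hausdorff : T2Space pts

/-- smooth `n`-manifolds (Hausdorff, without boundary, possibly noncompact) with a smooth function,
the height, without critical points -/
structure ManH (n : ℕ) where
  /-- the set of points -/
  pts : Type
  [top : TopologicalSpace pts]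
  [chart : ChartedSpace (RE n) pts]
  smooth : IsManifold (𝓡 n) ∞ pts
  hausdorff : T2Space pts
  /-- the height -/
  height : pts → ℝ
  smooth_height : SmoothFun (n := n) height
  regular : ∀ x, derFun (n := n) height x ≠ 0

instance (n : ℕ) : CoeSort (Man n) Type := ⟨Man.pts⟩

instance (n : ℕ) : CoeSort (ManH n) Type := ⟨ManH.pts⟩

instance {n : ℕ} (M : Man n) : TopologicalSpace M := M.top

instance {n : ℕ} (M : Man n) : ChartedSpace (RE n) M := M.chart

instance {n : ℕ} (M : ManH n) : TopologicalSpace M := M.top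

instance {n : ℕ} (M : ManH n) : ChartedSpace (RE n) M := M.chart

/-- the graph of `f` is contained in `O` -/
def GraphIn {M N : Type} (f : M → N) (O : Set (M × N)) : Prop := ∀ x, (x, f x) ∈ O

/-- `g` preserves the height -/
def Level {n : ℕ} {M N : ManH n} (g : M → N) : Prop := ∀ x, N.height (g x) = M.height x

/-- The least class of homeomorphisms of smooth `n`-manifolds with height functions without
critical points which contains the smooth height preserving ones with a compact set of bad points and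
with derivatives of rank at least `n - 1`, and which is closed under inverses, compositions and limits
relative to infinity (`g` belongs to the class if every neighbourhood `O` of its graph contains the
graph of a member `h O` of the class which agrees with `g` outside a compact set `C O`). -/
inductive Tame {n : ℕ} : (M N : ManH n) → (M ≃ₜ N) → Prop
  | corankOne {M N : ManH n} (g : M ≃ₜ N) : IsCompact (bad (n := n) g) → Smooth (n := n) g →
      (∀ x, n ≤ rank (der (n := n) g x) + 1) → Level g → Tame M N g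
  | inverse {M N : ManH n} (g : M ≃ₜ N) : Tame M N g → Tame N M g.symm
  | composition {M N P : ManH n} (g : M ≃ₜ N) (h : N ≃ₜ P) :
      Tame M N g → Tame N P h → Tame M P (g.trans h)
  | limit {M N : ManH n} (g : M ≃ₜ N) (h : Set (M × N) → (M ≃ₜ N)) (C : Set (M × N) → Set M) :
      (∀ O, IsOpen O → GraphIn g O → IsCompact (C O) ∧ GraphIn (h O) O ∧
        ∀ x, x ∉ C O → h O x = g x) →
      (∀ O, IsOpen O → GraphIn g O → Tame M N (h O)) → Tame M N g

/-- every neighbourhood of the graph of `g` contains the graph of a height preserving diffeomorphism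
which agrees with `g` outside a compact set -/
def Approximable {n : ℕ} (M N : ManH n) (g : M ≃ₜ N) : Prop :=
  ∀ O : Set (M × N), IsOpen O → GraphIn g O →
    ∃ (Φ : Diffeomorph (𝓡 n) (𝓡 n) M N ∞) (C : Set M), IsCompact C ∧ GraphIn Φ O ∧
      Level (M := M) (N := N) Φ ∧ ∀ x, x ∉ C → Φ x = g x

theorem approx_symm {n : ℕ} {M N : ManH n} (g : M ≃ₜ N) (hg : Approximable M N g) :
    Approximable N M g.symm := by
  intro O hO hgO
  obtain ⟨Φ, C, hC, hΦ, hl, hoff⟩ := hg (Prod.swap ⁻¹' O) (hO.preimage continuous_swap)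
    (fun x => by
      have := hgO (g x)
      rw [g.symm_apply_apply] at this
      exact this)
  refine ⟨Φ.symm, g '' C, hC.image g.continuous, fun y => ?_, fun y => ?_, fun y hy => ?_⟩
  · have := hΦ (Φ.symm y)
    rw [Φ.apply_symm_apply] at this
    exact this
  · have := hl (Φ.symm y)
    rw [Φ.apply_symm_apply] at this
    exact this.symm
  · have h1 : g.symm y ∉ C := fun h => hy ⟨_, h, g.apply_symm_apply y⟩
    have h2 := hoff _ h1
    rw [g.apply_symm_apply] at h2
    rw [← h2, Φ.symm_apply_apply, h2]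

theorem approx_trans {n : ℕ} {M N P : ManH n} (g : M ≃ₜ N) (h : N ≃ₜ P)
    (hg : Approximable M N g) (hh : Approximable N P h) : Approximable M P (g.trans h) := by
  intro O hO hgO
  have c1 : Continuous fun z : N × P => ((g.symm z.1, z.2) : M × P) :=
    (g.symm.continuous.comp continuous_fst).prodMk continuous_snd
  obtain ⟨Ψ, D, hD, hΨ, hl2, hoff2⟩ := hh ((fun z : N × P => ((g.symm z.1, z.2) : M × P)) ⁻¹' O)
    (hO.preimage c1) (fun y => by
      have := hgO (g.symm y)
      rw [Homeomorph.trans_apply, g.apply_symm_apply] at this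
      exact this)
  have c2 : Continuous fun z : M × N => ((z.1, Ψ z.2) : M × P) :=
    continuous_fst.prodMk (Ψ.continuous.comp continuous_snd)
  obtain ⟨Φ, C, hC, hΦ, hl, hoff⟩ := hg ((fun z : M × N => ((z.1, Ψ z.2) : M × P)) ⁻¹' O)
    (hO.preimage c2) (fun x => by
      have := hΨ (g x)
      simp only [mem_preimage, g.symm_apply_apply] at this
      exact this)
  refine ⟨Φ.trans Ψ, C ∪ g.symm '' D, hC.union (hD.image g.symm.continuous), hΦ,
    fun x => (hl2 (Φ x)).trans (hl x), fun x hx => ?_⟩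
  have h1 : Φ x = g x := hoff x fun h => hx (Or.inl h)
  have h2 : g x ∉ D := fun h => hx (Or.inr ⟨_, h, g.symm_apply_apply x⟩)
  change Ψ (Φ x) = h (g x)
  rw [h1, hoff2 _ h2]

theorem corank_aux (k : ℕ) (X Y : Type) [TopologicalSpace X] [TopologicalSpace Y]
    [ChartedSpace (RE (k + 1)) X] [ChartedSpace (RE (k + 1)) Y]
    (hX1 : IsManifold (𝓡 (k + 1)) ∞ X) (hX2 : T2Space X) (hY : IsManifold (𝓡 (k + 1)) ∞ Y)
    (σ : X → ℝ) (τ : Y → ℝ) (hσ : ∀ x, mfderiv (𝓡 (k + 1)) 𝓘(ℝ, ℝ) σ x ≠ 0)
    (hτ : ContMDiff (𝓡 (k + 1)) 𝓘(ℝ, ℝ) ∞ τ) (g : X ≃ₜ Y)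
    (hb : IsCompact {x | ¬ IsLocalDiffeomorphAt (𝓡 (k + 1)) (𝓡 (k + 1)) ∞ g x})
    (hg : ContMDiff (𝓡 (k + 1)) (𝓡 (k + 1)) ∞ g)
    (hr : ∀ x, k ≤ Module.finrank ℝ
      (LinearMap.range (mfderiv (𝓡 (k + 1)) (𝓡 (k + 1)) g x).toLinearMap))
    (hl : ∀ x, τ (g x) = σ x) (O : Set (X × Y)) (hO : IsOpen O) (hgO : GraphIn g O) :
    ∃ (Φ : Diffeomorph (𝓡 (k + 1)) (𝓡 (k + 1)) X Y ∞) (C : Set X), IsCompact C ∧ GraphIn Φ O ∧
      (∀ x, τ (Φ x) = σ x) ∧ ∀ x, x ∉ C → Φ x = g x := by
  have he : (fun x => τ (g x)) = σ := funext hl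
  obtain ⟨F, C, hC, hF, hd, hG, hlev, hoff⟩ :=
    Pool.Agent.L7h38.LV.colO k X Y g τ hg hτ (by rw [he]; exact hσ) hr hb O hO hgO
  have hl' : IsLocalDiffeomorph (𝓡 (k + 1)) (𝓡 (k + 1)) ∞ F := hd
  exact ⟨hl'.diffeomorphOfBijective hF, C, hC, hG, fun x => (hlev x).trans (hl x), hoff⟩

theorem approx_of_tame {k : ℕ} {M N : ManH (k + 1)} (g : M ≃ₜ N) (hg : Tame M N g) :
    Approximable M N g := by
  induction hg with
  | @corankOne M N g hb hs hr hl =>
    exact corank_aux k M N M.smooth M.hausdorff N.smooth M.height N.height M.regular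
      N.smooth_height g hb hs (fun x => Nat.le_of_succ_le_succ (hr x)) hl
  | inverse g _ ih => exact approx_symm g ih
  | composition g h _ _ ih1 ih2 => exact approx_trans g h ih1 ih2
  | limit g h C h1 _ ih =>
    intro O hO hgO
    obtain ⟨hC, hG, hoff⟩ := h1 O hO hgO
    obtain ⟨Φ, D, hD, hΦ, hl, hoff2⟩ := ih O hO hgO O hO hG
    refine ⟨Φ, C O ∪ D, hC.union hD, hΦ, hl, fun x hx => ?_⟩
    rw [hoff2 x fun h => hx (Or.inr h), hoff x fun h => hx (Or.inl h)]

variable {k : ℕ}

/-- a map from `ℝ × X` to a `k`-manifold is of class `C^∞` -/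
def SmoothFrom {X Y : Man k} (K : ℝ × X → Y) : Prop :=
  ContMDiff ((𝓘(ℝ, ℝ)).prod (𝓡 k)) (𝓡 k) ∞ K

/-- The manifold `M` with its height is the cylinder `ℝ × X` with the height `(t, x) ↦ t`, by means of
the diffeomorphism `p ↦ (height p, π p)` with the inverse `e`. -/
structure Cylinder (X : Man k) (M : ManH (k + 1)) where
  /-- the projection to `X` -/
  π : M → X
  /-- the parametrization by `ℝ × X` -/
  e : ℝ × X → M
  smooth_π : ContMDiff (𝓡 (k + 1)) (𝓡 k) ∞ π
  smooth_e : ContMDiff ((𝓘(ℝ, ℝ)).prod (𝓡 k)) (𝓡 (k + 1)) ∞ e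
  height_e : ∀ t x, M.height (e (t, x)) = t
  π_e : ∀ t x, π (e (t, x)) = x
  e_eq : ∀ p, e (M.height p, π p) = p

/-- `φ` is a diffeomorphism -/
def IsDiffeo {X Y : Man k} (φ : X → Y) : Prop :=
  ∃ ψ : Y → X, Smooth (n := k) φ ∧ Smooth (n := k) ψ ∧ (∀ x, ψ (φ x) = x) ∧ ∀ y, φ (ψ y) = y

/-- `K` is a smooth path of diffeomorphisms -/
def SmoothPath {X Y : Man k} (K : ℝ × X → Y) : Prop :=
  SmoothFrom K ∧ ∀ t, IsDiffeo fun x => K (t, x)

/-- `φ₀` and `φ₁` are joined by a smooth path of diffeomorphisms -/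
def Joined {X Y : Man k} (φ₀ φ₁ : X → Y) : Prop :=
  ∃ K : ℝ × X → Y, SmoothPath K ∧ (∀ x, K (0, x) = φ₀ x) ∧ ∀ x, K (1, x) = φ₁ x

/-- every neighbourhood of the graph of `f` contains the graph of a smooth path of diffeomorphisms
which agrees with `f` outside a compact set -/
def LimitOfSmoothPaths {X Y : Man k} (f : ℝ × X → Y) : Prop :=
  ∀ O : Set ((ℝ × X) × Y), IsOpen O → GraphIn f O →
    ∃ (K : ℝ × X → Y) (C : Set (ℝ × X)), SmoothPath K ∧ GraphIn K O ∧ IsCompact C ∧
      ∀ p, p ∉ C → K p = f p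

/-- the path `f` belongs to the class `Tame`: the map `(t, x) ↦ (t, f (t, x))` of cylinders is a
homeomorphism which belongs to it -/
def TamePath {X Y : Man k} (f : ℝ × X → Y) : Prop :=
  ∃ (M N : ManH (k + 1)) (A : Cylinder X M) (B : Cylinder Y N) (g : M ≃ₜ N),
    (∀ t x, g (A.e (t, x)) = B.e (t, f (t, x))) ∧ Tame M N g

theorem limit_of_tame {X Y : Man k} (f : ℝ × X → Y) (hf : TamePath f) : LimitOfSmoothPaths f := by
  obtain ⟨M, N, A, B, g, hg, ht⟩ := hf
  have hA := approx_of_tame g ht
  have hAh : Continuous M.height := M.smooth_height.continuous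
  intro O hO hfO
  have c1 : Continuous (fun z : M × N => (((M.height z.1, A.π z.1), B.π z.2) : (ℝ × X) × Y)) :=
    ((hAh.comp continuous_fst).prodMk (A.smooth_π.continuous.comp continuous_fst)).prodMk
      (B.smooth_π.continuous.comp continuous_snd)
  have hgB : ∀ p, B.π (g p) = f (M.height p, A.π p) := by
    intro p
    have h1 := hg (M.height p) (A.π p)
    rw [A.e_eq] at h1
    rw [h1, B.π_e]
  obtain ⟨Φ, C, hC, hΦ, hl, hoff⟩ := hA _ (hO.preimage c1) (by
    intro p
    change ((M.height p, A.π p), B.π (g p)) ∈ O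
    rw [hgB]
    exact hfO _)
  have hΦB : ∀ p, B.e (M.height p, B.π (Φ p)) = Φ p := by
    intro p
    have h1 := B.e_eq (Φ p)
    rwa [hl p] at h1
  have hls : ∀ q, M.height (Φ.symm q) = N.height q := by
    intro q
    have := hl (Φ.symm q)
    rw [Φ.apply_symm_apply] at this
    exact this.symm
  have hΦA : ∀ q, A.e (N.height q, A.π (Φ.symm q)) = Φ.symm q := by
    intro q
    have h1 := A.e_eq (Φ.symm q)
    rwa [hls q] at h1
  have sA : ∀ t : ℝ, ContMDiff (𝓡 k) (𝓡 (k + 1)) ∞ (fun x : X => A.e (t, x)) := fun t =>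
    A.smooth_e.comp (contMDiff_const.prodMk contMDiff_id)
  have sB : ∀ t : ℝ, ContMDiff (𝓡 k) (𝓡 (k + 1)) ∞ (fun x : Y => B.e (t, x)) := fun t =>
    B.smooth_e.comp (contMDiff_const.prodMk contMDiff_id)
  have cA : Continuous (fun z : ℝ × X => A.e z) := A.smooth_e.continuous
  refine ⟨fun q => B.π (Φ (A.e q)), (fun p => ((M.height p, A.π p) : ℝ × X)) '' C,
    ⟨B.smooth_π.comp (Φ.contMDiff.comp A.smooth_e), fun t => ?_⟩, ?_,
    hC.image (hAh.prodMk A.smooth_π.continuous), fun p hp => ?_⟩
  · refine ⟨fun y => A.π (Φ.symm (B.e (t, y))), B.smooth_π.comp (Φ.contMDiff.comp (sA t)),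
      A.smooth_π.comp (Φ.symm.contMDiff.comp (sB t)), fun x => ?_, fun y => ?_⟩
    · have h1 := hΦB (A.e (t, x))
      rw [A.height_e] at h1
      change A.π (Φ.symm (B.e (t, B.π (Φ (A.e (t, x)))))) = x
      rw [h1, Φ.symm_apply_apply, A.π_e]
    · have h1 := hΦA (B.e (t, y))
      rw [B.height_e] at h1
      change B.π (Φ (A.e (t, A.π (Φ.symm (B.e (t, y)))))) = y
      rw [h1, Φ.apply_symm_apply, B.π_e]
  · rintro ⟨t, x⟩
    have h1 := hΦ (A.e (t, x))
    change ((M.height (A.e (t, x)), A.π (A.e (t, x))), B.π (Φ (A.e (t, x)))) ∈ O at h1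
    rwa [A.height_e, A.π_e] at h1
  · obtain ⟨t, x⟩ := p
    have h1 : A.e (t, x) ∉ C := fun h => hp ⟨_, h, by
      change (M.height (A.e (t, x)), A.π (A.e (t, x))) = (t, x)
      rw [A.height_e, A.π_e]⟩
    change B.π (Φ (A.e (t, x))) = f (t, x)
    rw [hoff _ h1, hgB, A.height_e, A.π_e]

/-- Let `f` be a path of homeomorphisms, equal to `φ₀` for `t ≤ 0` and to `φ₁` for `t ≥ 1`, which
belongs to the class `Tame`. Then `φ₀` and `φ₁` are joined by a smooth path of diffeomorphisms, and
the path `f` is a limit of smooth paths of diffeomorphisms. -/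
theorem result {X Y : Man k} (φ₀ φ₁ : X → Y) (f : ℝ × X → Y)
    (f0 : ∀ t x, t ≤ 0 → f (t, x) = φ₀ x) (f1 : ∀ t x, 1 ≤ t → f (t, x) = φ₁ x)
    (hf : TamePath f) : Joined φ₀ φ₁ ∧ LimitOfSmoothPaths f := by
  have key := limit_of_tame f hf
  refine ⟨?_, key⟩
  obtain ⟨K, C, ⟨hK1, hK2⟩, -, hC, hoff⟩ := key univ isOpen_univ (fun _ => mem_univ _)
  obtain ⟨R, hR1, hR⟩ := Pool.Agent.L7h38.LV.bounded_height (X := X) C hC
  refine ⟨fun q => K (-R + 2 * R * q.1, q.2), ⟨?_, fun t => hK2 (-R + 2 * R * t)⟩,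
    fun x => ?_, fun x => ?_⟩
  · have h2 : ContMDiff 𝓘(ℝ, ℝ) 𝓘(ℝ, ℝ) ∞ (fun s : ℝ => -R + 2 * R * s) := by
      have : ContDiff ℝ ∞ (fun s : ℝ => -R + 2 * R * s) := by fun_prop
      exact this.contMDiff
    exact ContMDiff.comp (g := K) hK1 ((h2.comp contMDiff_fst).prodMk contMDiff_snd)
  · have h2 : ((-R + 2 * R * (0 : ℝ), x) : ℝ × X) ∉ C := fun hc => by
      have h3 := hR _ hc
      change |-R + 2 * R * 0| < R at h3
      rw [mul_zero, add_zero, abs_neg] at h3
      exact absurd (le_abs_self R) (not_le.2 h3)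
    change K (-R + 2 * R * 0, x) = _
    rw [hoff _ h2]
    exact f0 _ _ (by linarith)
  · have h2 : ((-R + 2 * R * (1 : ℝ), x) : ℝ × X) ∉ C := fun hc => by
      have h3 := hR _ hc
      change |-R + 2 * R * 1| < R at h3
      have h4 : -R + 2 * R * 1 = R := by ring
      rw [h4] at h3
      exact absurd (le_abs_self R) (not_le.2 h3)
    change K (-R + 2 * R * 1, x) = _
    rw [hoff _ h2]
    exact f1 _ _ (by linarith)

end Pool.Agent.Results.MP_28b04d_gt.TameIsotopies
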